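import Pool.Agent.H11.LD.Targets

/-!
# The upper bound for the form FF (module UBB)
-/

set_option autoImplicit false

open Finset Classical

namespace Pool.Agent.H74.LD

open Pool.Agent.H11.LD Pool.Agent.H9.Lap

/-- the leaves of a cluster: ordinary ones and ends of links -/
theorem split (g m : ℕ) (P : Prop) (i : ℕ) (hm : 3 ≤ m) (F : ℕ → ℝ) :
    ∑ j ∈ (range m).erase 0, F j = ∑ j ∈ ordL g m P i, F j +
      ((if Used g P (i, 1) then F 1 else 0) + (if Used g P (i, 2) then F 2 else 0)) := by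
  have h1 : ordL g m P i = ((range m).erase 0).filter (fun j => ¬ Used g P (i, j)) := by
    ext j
    unfold ordL
    simp only [mem_filter, mem_range, mem_erase]
    tauto
  have h2 : ((range m).erase 0).filter (fun j => Used g P (i, j)) =
      ({1, 2} : Finset ℕ).filter (fun j => Used g P (i, j)) := by
    ext j
    simp only [mem_filter, mem_range, mem_erase, mem_insert, mem_singleton]
    constructor
    · rintro ⟨-, h⟩
      refine ⟨?_, h⟩
      unfold Used at h
      simp only at h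
      omega
    · rintro ⟨h, h'⟩
      exact ⟨by omega, h'⟩
  rw [← Finset.sum_filter_add_sum_filter_not ((range m).erase 0) (fun j => Used g P (i, j)),
    h1, h2, Finset.sum_filter, Finset.sum_pair (by norm_num), add_comm]

/-- every used leaf `(i, 1)` is the end of one link -/
theorem link1 (n : ℕ) (P : Prop) (F : ℕ → ℝ) :
    ∑ i ∈ range (n + 1), (if Used (n + 1) P (i, 1) then F i else 0) =
      ∑ i ∈ range n, F i + (if P then F n else 0) := by
  rw [Finset.sum_range_succ]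
  have h1 : Used (n + 1) P (n, 1) ↔ P := by
    unfold Used
    simp
  rw [if_congr h1 rfl rfl]
  refine congrArg (· + _) (Finset.sum_congr rfl fun i hi => ?_)
  rw [mem_range] at hi
  rw [if_pos]
  exact Or.inl ⟨rfl, Or.inl (by omega)⟩

/-- every used leaf `(i, 2)` is the end of one link -/
theorem link2 (n : ℕ) (P : Prop) (G : ℕ → ℝ) :
    ∑ i ∈ range (n + 1), (if Used (n + 1) P (i, 2) then G i else 0) =
      ∑ i ∈ range n, G (i + 1) + (if P then G 0 else 0) := by
  rw [Finset.sum_range_succ']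
  have h1 : Used (n + 1) P (0, 2) ↔ P := by
    unfold Used
    simp
  rw [if_congr h1 rfl rfl]
  refine congrArg (· + _) (Finset.sum_congr rfl fun i hi => ?_)
  rw [if_pos]
  exact Or.inr ⟨rfl, Or.inl (by simp)⟩

theorem pf_UBB (hPU : T_PU) (hCU : T_CU) (hUBL : T_UBL) (hUBK : T_UBK) : T_UBB := by
  intro g m P Q μ x hg hm hμ3 hμm hroot hP hQ
  obtain ⟨n, rfl⟩ : ∃ n, g = n + 1 := ⟨g - 1, by omega⟩
  have hm' : (3 : ℝ) ≤ m := by exact_mod_cast hm
  have hμ1 : 0 < μ - 1 := by linarith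
  have hμ2 : 0 < μ - 3 := by linarith
  set κ : ℝ := μ / (μ - 1) with hκ
  set δ : ℝ := (μ - 1) * (μ - 3) with hδ
  have hδ0 : 0 < δ := mul_pos hμ1 hμ2
  obtain ⟨hK1, hK2⟩ := hUBK μ hμ3
  set F : ℕ → ℝ := fun i => (x i 0 - x i 1) ^ 2 - κ * x i 0 ^ 2 - μ * x i 1 ^ 2 with hF
  set G : ℕ → ℝ := fun i => (x i 0 - x i 2) ^ 2 - κ * x i 0 ^ 2 - μ * x i 2 ^ 2 with hG
  -- one cluster
  have hclu : ∀ i, ∑ j ∈ (range m).erase 0, (x i 0 - x i j) ^ 2 +
      (∑ j ∈ ordL (n + 1) m P i, ∑ j' ∈ ordL (n + 1) m P i, (x i j - x i j') ^ 2) / 2 ≤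
      μ * ∑ j ∈ range m, x i j ^ 2 + ((m - 1) * κ - μ) * x i 0 ^ 2 +
        (if Used (n + 1) P (i, 1) then F i else 0) +
        (if Used (n + 1) P (i, 2) then G i else 0) := by
    intro i
    have e1 := split (n + 1) m P i hm (fun j => (x i 0 - x i j) ^ 2)
    have e2 := split (n + 1) m P i hm (fun j => x i j ^ 2)
    have e3 := split (n + 1) m P i hm (fun _ => (1 : ℝ))
    have e4 : ∑ j ∈ range m, x i j ^ 2 = ∑ j ∈ (range m).erase 0, x i j ^ 2 + x i 0 ^ 2 :=
      (Finset.sum_erase_add _ _ (by rw [mem_range]; omega)).symm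
    have e5 : ∑ j ∈ (range m).erase 0, (1 : ℝ) = m - 1 := by
      rw [Finset.sum_const, Finset.card_erase_of_mem (by rw [mem_range]; omega), card_range,
        nsmul_eq_mul, mul_one, Nat.cast_sub (by omega), Nat.cast_one]
    rw [e5, Finset.sum_const, nsmul_eq_mul, mul_one] at e3
    have hcard : ((ordL (n + 1) m P i).card : ℝ) + 1 ≤ μ := by
      have h1 : (0 : ℝ) ≤ (if Used (n + 1) P (i, 1) then (1 : ℝ) else 0) := by
        split_ifs <;> norm_num
      have h2 : (0 : ℝ) ≤ (if Used (n + 1) P (i, 2) then (1 : ℝ) else 0) := by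
        split_ifs <;> norm_num
      linarith
    have hL := hUBL (ordL (n + 1) m P i) (fun j => x i j) (x i 0) μ (by linarith) hcard
    rw [e1, e4, e2]
    rw [← hκ] at hL
    have e6 : ((ordL (n + 1) m P i).card : ℝ) = (m : ℝ) - 1 -
        ((if Used (n + 1) P (i, 1) then (1 : ℝ) else 0) +
          (if Used (n + 1) P (i, 2) then (1 : ℝ) else 0)) := by linarith
    rw [e6] at hL
    simp only [hF, hG]
    split_ifs at hL ⊢ <;> nlinarith [hL]
  have hsum := Finset.sum_le_sum fun i (_ : i ∈ range (n + 1)) => hclu i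
  simp only [Finset.sum_add_distrib] at hsum
  rw [← Finset.mul_sum, ← Finset.mul_sum, link1, link2] at hsum
  -- the links
  set E : ℕ → ℝ := fun i => F i + G (i + 1) + (x i 1 - x (i + 1) 2) ^ 2 with hE
  have hE1 : ∀ i, E i ≤ (x i 0 - x (i + 1) 0) ^ 2 / δ := by
    intro i
    have h := hK1 (x i 0) (x (i + 1) 0) (x i 1) (x (i + 1) 2)
    simp only [hE, hF, hG]
    rw [← hκ, ← hδ] at h
    linarith
  have hEs : ∑ i ∈ range n, F i + ∑ i ∈ range n, G (i + 1) +
      ∑ i ∈ range n, (x i 1 - x (i + 1) 2) ^ 2 = ∑ i ∈ range n, E i := by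
    rw [← Finset.sum_add_distrib, ← Finset.sum_add_distrib]
  have hlam : ∀ Z Y : ℝ, Z ≤ 4 * Real.cos (Real.pi / (2 * ((n + 1 : ℕ) : ℝ))) ^ 2 * Y →
      Z / δ + ((m - 1) * κ - μ) * Y ≤ 0 := by
    intro Z Y h
    rw [← hroot] at h
    have h1 : Z / δ ≤ μ * (μ - 3) * (μ - m) * Y / δ := div_le_div_of_nonneg_right h hδ0.le
    have h2 : μ * (μ - 3) * (μ - m) * Y / δ + ((m - 1) * κ - μ) * Y = 0 := by
      rw [hδ, hκ]
      field_simp
      ring
    linarith
  unfold FF
  rw [Nat.add_sub_cancel, Finset.sum_add_distrib]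
  by_cases hPc : P
  · have hQc : ¬ Q := fun h => (hQ h).2.2 hPc
    have hodd := hP hPc
    have hC := hCU (n + 1) (fun i => x i 0) (by
      obtain ⟨r, hr⟩ := hodd
      omega) hodd
    rw [Nat.add_sub_cancel] at hC
    have h1 := hlam _ _ hC
    rw [if_pos hPc, if_neg hQc]
    rw [if_pos hPc, if_pos hPc] at hsum
    have h2 := hK1 (x n 0) (x 0 0) (x n 1) (x 0 2)
    rw [← hκ, ← hδ] at h2
    have h3 : F n + G 0 + (x n 1 - x 0 2) ^ 2 ≤ (x n 0 - x 0 0) ^ 2 / δ := by
      simp only [hF, hG]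
      linarith
    have h4 : ∑ i ∈ range n, E i ≤ (∑ i ∈ range n, (x i 0 - x (i + 1) 0) ^ 2) / δ := by
      rw [Finset.sum_div]
      exact Finset.sum_le_sum fun i _ => hE1 i
    have h5 : (∑ i ∈ range n, (x i 0 - x (i + 1) 0) ^ 2 + (x n 0 - x 0 0) ^ 2) / δ =
        (∑ i ∈ range n, (x i 0 - x (i + 1) 0) ^ 2) / δ + (x n 0 - x 0 0) ^ 2 / δ := add_div _ _ _
    rw [h5] at h1
    linarith
  · rw [if_neg hPc]
    rw [if_neg hPc, if_neg hPc] at hsum
    by_cases hQc : Q
    · obtain ⟨hodd, hm5, -⟩ := hQ hQc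
      obtain ⟨k, hk⟩ := hodd
      have hk1 : 1 ≤ k := by omega
      obtain ⟨l, rfl⟩ : ∃ l, k = l + 1 := ⟨k - 1, by omega⟩
      have hPk := (hPU (n + 1) (fun i => x i 0) hg).2 (l + 1) 1 hk zero_le_one le_rfl
      rw [Nat.add_sub_cancel, Nat.add_sub_cancel] at hPk
      have h1 := hlam _ _ hPk
      rw [if_pos hQc]
      have hmid : (n + 1) / 2 = l + 1 := by omega
      rw [hmid]
      have hμ5 : 5 ≤ μ := by
        have : (5 : ℝ) ≤ m := by exact_mod_cast hm5
        linarith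
      have h2 := hK2 hμ5 (x l 0) (x (l + 1) 0) (x (l + 1 + 1) 0) (x l 1) (x (l + 1) 2)
        (x (l + 1) 1) (x (l + 1 + 1) 2)
      rw [← hκ, ← hδ] at h2
      have hD : ∀ i, 0 ≤ (x i 0 - x (i + 1) 0) ^ 2 / δ - E i := fun i => by
        linarith [hE1 i]
      have hsub : ({l, l + 1} : Finset ℕ) ⊆ range n := by
        intro i hi
        rw [mem_insert, mem_singleton] at hi
        rw [mem_range]
        omega
      have h3 := Finset.sum_le_sum_of_subset_of_nonneg hsub
        (f := fun i => (x i 0 - x (i + 1) 0) ^ 2 / δ - E i) (fun i _ _ => hD i)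
      rw [Finset.sum_pair (by omega), Finset.sum_sub_distrib, ← Finset.sum_div] at h3
      have h4 : (x (l + 1) 1 - x (l + 1) 2) ^ 2 - (x l 0 - x (l + 1 + 1) 0) ^ 2 / 2 / δ ≤
          ((x l 0 - x (l + 1) 0) ^ 2 / δ - E l) +
            ((x (l + 1) 0 - x (l + 1 + 1) 0) ^ 2 / δ - E (l + 1)) := by
        have e : ((x l 0 - x (l + 1) 0) ^ 2 + (x (l + 1) 0 - x (l + 1 + 1) 0) ^ 2 +
            (x l 0 - x (l + 1 + 1) 0) ^ 2 / 2) / δ = (x l 0 - x (l + 1) 0) ^ 2 / δ +
            (x (l + 1) 0 - x (l + 1 + 1) 0) ^ 2 / δ +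
            (x l 0 - x (l + 1 + 1) 0) ^ 2 / 2 / δ := by ring
        rw [e] at h2
        simp only [hE, hF, hG]
        nlinarith [h2]
      have h5 : (∑ i ∈ range n, (x i 0 - x (i + 1) 0) ^ 2 +
          1 / 2 * (x (l + 1 + 1) 0 - x l 0) ^ 2) / δ =
          (∑ i ∈ range n, (x i 0 - x (i + 1) 0) ^ 2) / δ +
            (x l 0 - x (l + 1 + 1) 0) ^ 2 / 2 / δ := by ring
      rw [h5] at h1
      linarith
    · rw [if_neg hQc]
      have hPk := (hPU (n + 1) (fun i => x i 0) hg).1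
      rw [Nat.add_sub_cancel] at hPk
      have h1 := hlam _ _ hPk
      have h4 : ∑ i ∈ range n, E i ≤ (∑ i ∈ range n, (x i 0 - x (i + 1) 0) ^ 2) / δ := by
        rw [Finset.sum_div]
        exact Finset.sum_le_sum fun i _ => hE1 i
      linarith

end Pool.Agent.H74.LD
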