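import Pool.Agent.H80.LD.Targets
import Pool.Agent.H68.DPC.INV

/-!
MP_47c37b_mp, board ldp, row DIF: differences of the moments from reflection positivity.
-/

set_option autoImplicit false

open MeasureTheory SchwartzMap Filter Topology
open scoped ENNReal ContDiff InnerProductSpace

namespace Pool.Agent.H74.LD

open Pool.Agent.H80.LD
open Pool.Agent.H43.DPC (V S SD moment trans rot IsMAO IsDC Diag)
open Pool.Agent.H43.DPCS (TransInv RotInv)

noncomputable section

variable {d : ℕ}

/-- the `L¹` norm -/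
def NN (f : S d) : ℝ := ∫ x, |f x|

/-- separated supports -/
def Sp (δ : ℝ) (f g : S d) : Prop := ∀ x ∈ tsupport f, ∀ y ∈ tsupport g, δ ≤ ‖x - y‖

theorem Sp_symm {δ : ℝ} {f g : S d} (h : Sp δ f g) : Sp δ g f := by
  intro x hx y hy
  rw [norm_sub_rev]
  exact h y hy x hx

theorem trans_apply (v : V d) (f : S d) (x : V d) : trans v f x = f (x - v) := rfl

theorem rot_apply (R : V d ≃ₗᵢ[ℝ] V d) (f : S d) (x : V d) : rot R f x = f (R x) := rfl

theorem trans_trans (v w : V d) (f : S d) : trans v (trans w f) = trans (v + w) f := by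
  ext x
  rw [trans_apply, trans_apply, trans_apply, sub_sub]

theorem mem_tsupport_trans (v : V d) (f : S d) {x : V d} (hx : x ∈ tsupport (trans v f)) :
    x - v ∈ tsupport f := by
  have h := tsupport_comp_eq_preimage (f : V d → ℝ) (Homeomorph.subRight v)
  have e : (trans v f : V d → ℝ) = (f : V d → ℝ) ∘ (Homeomorph.subRight v) := rfl
  rw [e, h] at hx
  exact hx

theorem mem_tsupport_rot (R : V d ≃ₗᵢ[ℝ] V d) (f : S d) {x : V d}
    (hx : x ∈ tsupport (rot R f)) : R x ∈ tsupport f := by
  have h := tsupport_comp_eq_preimage (f : V d → ℝ) R.toHomeomorph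
  have e : (rot R f : V d → ℝ) = (f : V d → ℝ) ∘ R.toHomeomorph := rfl
  rw [e, h] at hx
  exact hx

theorem hcs_trans (v : V d) {f : S d} (hf : HasCompactSupport f) :
    HasCompactSupport (trans v f) :=
  hf.comp_homeomorph (Homeomorph.subRight v)

theorem hcs_rot (R : V d ≃ₗᵢ[ℝ] V d) {f : S d} (hf : HasCompactSupport f) :
    HasCompactSupport (rot R f) :=
  hf.comp_homeomorph R.toHomeomorph

theorem NN_trans (v : V d) (f : S d) : NN (trans v f) = NN f := by
  unfold NN
  exact integral_sub_right_eq_self (fun x => |f x|) v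

theorem NN_rot (R : V d ≃ₗᵢ[ℝ] V d) (f : S d) : NN (rot R f) = NN f := by
  unfold NN
  exact R.measurePreserving.integral_comp R.toHomeomorph.measurableEmbedding (fun x => |f x|)

theorem NN_nonneg (f : S d) : 0 ≤ NN f := integral_nonneg fun _ => abs_nonneg _

/-- the reflection changes the sign of the coordinate -/
theorem inner_Re (e x : V d) : ⟪e, Re e x⟫_ℝ = -⟪e, x⟫_ℝ := by
  have h1 : Re e e = -e := Submodule.reflection_orthogonalComplement_singleton_eq_neg e
  have h2 : Re e (Re e x) = x := Submodule.reflection_reflection _ x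
  have h3 := (Re e).inner_map_map e (Re e x)
  rw [h1, h2, inner_neg_left] at h3
  exact h3.symm

theorem le_norm_of_inner {e x y : V d} (he : ‖e‖ = 1) {δ : ℝ} (h : δ ≤ ⟪e, x⟫_ℝ - ⟪e, y⟫_ℝ) :
    δ ≤ ‖x - y‖ := by
  rw [← inner_sub_right] at h
  have h1 := real_inner_le_norm e (x - y)
  rw [he, one_mul] at h1
  exact h.trans h1

theorem Sp_rot {δ : ℝ} {f g : S d} (R : V d ≃ₗᵢ[ℝ] V d) (h : Sp δ f g) :
    Sp δ (rot R f) (rot R g) := by
  intro x hx y hy
  have h1 := h _ (mem_tsupport_rot R f hx) _ (mem_tsupport_rot R g hy)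
  rwa [← map_sub, LinearIsometryEquiv.norm_map] at h1

theorem Sp_trans {δ : ℝ} {f g : S d} (v : V d) (h : Sp δ f g) :
    Sp δ (trans v f) (trans v g) := by
  intro x hx y hy
  have h1 := h _ (mem_tsupport_trans v f hx) _ (mem_tsupport_trans v g hy)
  rwa [sub_sub_sub_cancel_right] at h1

/-- moments of lists as moments -/
theorem ml_eq_moment (μ : Measure (SD d)) (l : List (S d)) :
    ml μ l = moment μ (fun i : Fin l.length => l[i.1]) := by
  unfold ml moment
  refine integral_congr_ae (Filter.Eventually.of_forall fun T => ?_)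
  exact (Fin.prod_univ_fun_getElem l (fun f => T f)).symm

/-- the uniform bound for lists -/
theorem ml_bound {μ : Measure (SD d)} (hL : Lob μ) (n : ℕ) (δ : ℝ) (hδ : 0 < δ) :
    ∃ K : ℝ, 0 ≤ K ∧ ∀ l : List (S d), l.length ≤ n → (∀ f ∈ l, HasCompactSupport f) →
      l.Pairwise (Sp δ) → |ml μ l| ≤ K * (l.map NN).prod := by
  choose K hK0 hK using fun m : ℕ => hL m δ hδ
  refine ⟨∑ m ∈ Finset.range (n + 1), K m, Finset.sum_nonneg fun m _ => hK0 m, ?_⟩
  intro l hl hc hp
  have h1 : SepS δ (fun i : Fin l.length => l[i.1]) := by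
    refine ⟨fun i => hc _ (List.getElem_mem _), ?_⟩
    intro i j hij
    rw [List.pairwise_iff_getElem] at hp
    rcases lt_or_gt_of_ne hij with h | h
    · exact hp i.1 j.1 i.2 j.2 h
    · exact Sp_symm (hp j.1 i.1 j.2 i.2 h)
  have h2 := hK l.length (fun i : Fin l.length => l[i.1]) h1
  rw [ml_eq_moment]
  have h3 : ∏ i : Fin l.length, ∫ x, |(l[i.1] : S d) x| = (l.map NN).prod :=
    Fin.prod_univ_fun_getElem l NN
  rw [h3] at h2
  refine h2.trans (mul_le_mul_of_nonneg_right ?_ ?_)
  · exact Finset.single_le_sum (f := K) (fun m _ => hK0 m) (Finset.mem_range.mpr (by omega))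
  · apply List.prod_nonneg
    intro a ha
    obtain ⟨f, -, rfl⟩ := List.mem_map.mp ha
    exact NN_nonneg f

/-- the doubled list -/
theorem ml_double {μ : Measure (SD d)} {n : ℕ} {δ K : ℝ}
    (hK : ∀ l : List (S d), l.length ≤ 2 * n → (∀ f ∈ l, HasCompactSupport f) →
      l.Pairwise (Sp δ) → |ml μ l| ≤ K * (l.map NN).prod) (hK0 : 0 ≤ K) (_hδ : 0 < δ)
    {e : V d} (he : ‖e‖ = 1) (l : List (S d)) (hl : l.length ≤ n)
    (hc : ∀ f ∈ l, HasCompactSupport f) (hp : l.Pairwise (Sp δ))
    (hs : (∀ f ∈ l, ∀ x ∈ tsupport f, ⟪e, x⟫_ℝ ≤ -(δ / 2)) ∨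
      (∀ f ∈ l, ∀ x ∈ tsupport f, δ / 2 ≤ ⟪e, x⟫_ℝ)) :
    Real.sqrt (ml μ (l.map (rot (Re e)) ++ l)) ≤ Real.sqrt K * (l.map NN).prod := by
  have hN0 : 0 ≤ (l.map NN).prod := by
    apply List.prod_nonneg
    intro a ha
    obtain ⟨f, -, rfl⟩ := List.mem_map.mp ha
    exact NN_nonneg f
  have h1 := hK (l.map (rot (Re e)) ++ l) (by
    rw [List.length_append, List.length_map]
    omega) (by
    intro f hf
    rcases List.mem_append.mp hf with h | h
    · obtain ⟨g, hg, rfl⟩ := List.mem_map.mp h
      exact hcs_rot _ (hc g hg)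
    · exact hc f h) (by
    rw [List.pairwise_append]
    refine ⟨?_, hp, ?_⟩
    · rw [List.pairwise_map]
      exact hp.imp fun h => Sp_rot _ h
    · intro f hf g hg x hx y hy
      obtain ⟨f', hf', rfl⟩ := List.mem_map.mp hf
      have hx' := mem_tsupport_rot _ _ hx
      rcases hs with hs | hs
      · apply le_norm_of_inner he
        have h2 := hs f' hf' _ hx'
        have h3 := hs g hg y hy
        rw [inner_Re] at h2
        linarith
      · rw [norm_sub_rev]
        apply le_norm_of_inner he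
        have h2 := hs f' hf' _ hx'
        have h3 := hs g hg y hy
        rw [inner_Re] at h2
        linarith)
  have h4 : ((l.map (rot (Re e)) ++ l).map NN).prod = (l.map NN).prod ^ 2 := by
    rw [List.map_append, List.prod_append, List.map_map, sq]
    congr 2
    apply List.map_congr_left
    intro f _
    exact NN_rot _ f
  rw [h4] at h1
  calc Real.sqrt (ml μ (l.map (rot (Re e)) ++ l)) ≤ Real.sqrt (K * (l.map NN).prod ^ 2) :=
        Real.sqrt_le_sqrt ((le_abs_self _).trans h1)
    _ = Real.sqrt K * (l.map NN).prod := by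
        rw [Real.sqrt_mul hK0, Real.sqrt_sq hN0]

/-- row DIF -/
theorem pf_DIF (hRPD : T_RPD) (_hLOB : T_LOB) : T_DIF := by
  classical
  intro d μ _ hM hT hR hRP hL n m δ hδ
  obtain ⟨K, hK0, hK⟩ := ml_bound hL (2 * n) δ hδ
  refine ⟨(4 * m / δ) ^ m * K, by positivity, ?_⟩
  intro e c R f he hS hA hB h hh hmh
  have hT' := Pool.Agent.H43.DPCS.transInv_of μ hT
  -- translate
  set g : Fin n → S d := fun j => trans ((-c) • e) (f j) with hg
  have hgA : ∀ j ∉ R, ∀ x ∈ tsupport (g j), ⟪e, x⟫_ℝ ≤ -δ := by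
    intro j hj x hx
    have h1 := hA j hj _ (mem_tsupport_trans _ _ hx)
    rw [inner_sub_right, inner_smul_right, real_inner_self_eq_norm_sq, he] at h1
    linarith
  have hgB : ∀ j ∈ R, ∀ x ∈ tsupport (g j), δ ≤ ⟪e, x⟫_ℝ := by
    intro j hj x hx
    have h1 := hB j hj _ (mem_tsupport_trans _ _ hx)
    rw [inner_sub_right, inner_smul_right, real_inner_self_eq_norm_sq, he] at h1
    linarith
  have hgS : ∀ i j, i ≠ j → Sp δ (g i) (g j) := by
    intro i j hij
    exact Sp_trans _ (fun x hx y hy => hS.2 i j hij x hx y hy)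
  have hgc : ∀ j, HasCompactSupport (g j) := fun j => hcs_trans _ (hS.1 j)
  set A : List (S d) := Rᶜ.toList.map g with hAd
  set L : List (S d) := R.toList.map g with hLd
  have hmom : ∀ s : ℝ, moment μ (fun j => if j ∈ R then trans (s • e) (f j) else f j) =
      ml μ (A ++ L.map (trans (s • e))) := by
    intro s
    rw [← (Pool.Agent.H43.DPC.INV).moment_trans d μ hT' n ((-c) • e)]
    unfold moment ml
    refine integral_congr_ae (Filter.Eventually.of_forall fun T => ?_)
    simp only [hAd, hLd, List.map_append, List.prod_append, List.map_map,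
      Finset.prod_map_toList]
    rw [mul_comm, ← Finset.prod_mul_prod_compl R]
    congr 1
    · apply Finset.prod_congr rfl
      intro j hj
      rw [if_pos hj, trans_trans, add_comm, ← trans_trans]
      rfl
    · apply Finset.prod_congr rfl
      intro j hj
      rw [if_neg (Finset.mem_compl.mp hj)]
      rfl
  have hpA : A.Pairwise (Sp δ) := by
    rw [hAd, List.pairwise_map]
    exact (Finset.nodup_toList _).imp fun h => hgS _ _ h
  have hpL : L.Pairwise (Sp δ) := by
    rw [hLd, List.pairwise_map]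
    exact (Finset.nodup_toList _).imp fun h => hgS _ _ h
  have hcard : R.card ≤ n := by
    have := Finset.card_le_univ R
    rwa [Fintype.card_fin] at this
  have hcardc : Rᶜ.card ≤ n := by
    have := Finset.card_le_univ Rᶜ
    rwa [Fintype.card_fin] at this
  have hRPDi := hRPD d μ hM hT hR e he (hRP e he) A L (δ / 2) m h (by
      intro f' hf' x hx
      obtain ⟨j, hj, rfl⟩ := List.mem_map.mp hf'
      have h1 := hgA j (Finset.mem_compl.mp (Finset.mem_toList.mp hj)) x
        (subset_tsupport _ hx)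
      linarith) (by
      intro f' hf' x hx
      obtain ⟨j, hj, rfl⟩ := List.mem_map.mp hf'
      have h1 := hgB j (Finset.mem_toList.mp hj) x (subset_tsupport _ hx)
      linarith) hh (by linarith) (by positivity)
  have hsum : ∑ i ∈ Finset.range (m + 1), (-1) ^ i * (m.choose i : ℝ) *
      moment μ (fun j => if j ∈ R then trans (((i : ℝ) * h) • e) (f j) else f j) =
      ∑ i ∈ Finset.range (m + 1), (-1) ^ i * (m.choose i : ℝ) *
        ml μ (A ++ L.map (Pool.Agent.H43.DPC.trans (((i : ℝ) * h) • e))) := by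
    apply Finset.sum_congr rfl
    intro i _
    rw [hmom]
  rw [hsum]
  have hdA := ml_double hK hK0 hδ he A (by
      rw [hAd, List.length_map, Finset.length_toList]
      exact hcardc) (by
      intro f' hf'
      obtain ⟨j, hj, rfl⟩ := List.mem_map.mp hf'
      exact hgc j) hpA (Or.inl (by
      intro f' hf' x hx
      obtain ⟨j, hj, rfl⟩ := List.mem_map.mp hf'
      have h1 := hgA j (Finset.mem_compl.mp (Finset.mem_toList.mp hj)) x hx
      linarith))
  have hdL := ml_double hK hK0 hδ he (L.map (trans ((-(δ / 2)) • e))) (by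
      rw [List.length_map, hLd, List.length_map, Finset.length_toList]
      exact hcard) (by
      intro f' hf'
      obtain ⟨f'', hf'', rfl⟩ := List.mem_map.mp hf'
      obtain ⟨j, hj, rfl⟩ := List.mem_map.mp hf''
      exact hcs_trans _ (hgc j)) (by
      rw [List.pairwise_map]
      exact hpL.imp fun h => Sp_trans _ h) (Or.inr (by
      intro f' hf' x hx
      obtain ⟨f'', hf'', rfl⟩ := List.mem_map.mp hf'
      obtain ⟨j, hj, rfl⟩ := List.mem_map.mp hf''
      have h1 := hgB j (Finset.mem_toList.mp hj) _ (mem_tsupport_trans _ _ hx)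
      rw [inner_sub_right, inner_smul_right, real_inner_self_eq_norm_sq, he] at h1
      linarith))
  refine hRPDi.trans ?_
  have hNA : (A.map NN).prod * ((L.map (Pool.Agent.H43.DPC.trans ((-(δ / 2)) • e))).map NN).prod =
      ∏ i, ∫ x, |f i x| := by
    simp only [hAd, hLd, List.map_map, Finset.prod_map_toList]
    rw [mul_comm, ← Finset.prod_mul_prod_compl R (fun i => ∫ x, |f i x|)]
    congr 1
    · apply Finset.prod_congr rfl
      intro j _
      simp only [Function.comp_apply]
      rw [NN_trans, hg, NN_trans]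
      rfl
    · apply Finset.prod_congr rfl
      intro j _
      simp only [Function.comp_apply]
      rw [hg, NN_trans]
      rfl
  have hpow : (2 * m * h / (δ / 2)) ^ m = (4 * m / δ) ^ m * h ^ m := by
    rw [← mul_pow]
    congr 1
    field_simp
    ring
  rw [hpow]
  have hNA0 : 0 ≤ (A.map NN).prod := by
    apply List.prod_nonneg
    intro a ha
    obtain ⟨f, -, rfl⟩ := List.mem_map.mp ha
    exact NN_nonneg f
  have hmul : Real.sqrt (ml μ (A.map (rot (Re e)) ++ A)) *
      Real.sqrt (ml μ ((L.map (Pool.Agent.H43.DPC.trans ((-(δ / 2)) • e))).map (rot (Re e)) ++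
        L.map (Pool.Agent.H43.DPC.trans ((-(δ / 2)) • e)))) ≤ K * ∏ i, ∫ x, |f i x| := by
    calc _ ≤ (Real.sqrt K * (A.map NN).prod) *
          (Real.sqrt K * ((L.map (Pool.Agent.H43.DPC.trans ((-(δ / 2)) • e))).map NN).prod) :=
          mul_le_mul hdA hdL (Real.sqrt_nonneg _) (by positivity)
      _ = (Real.sqrt K * Real.sqrt K) *
          ((A.map NN).prod *
            ((L.map (Pool.Agent.H43.DPC.trans ((-(δ / 2)) • e))).map NN).prod) := by ring
      _ = K * ∏ i, ∫ x, |f i x| := by rw [Real.mul_self_sqrt hK0, hNA]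
  calc (4 * m / δ) ^ m * h ^ m * (Real.sqrt (ml μ (A.map (rot (Re e)) ++ A)) *
      Real.sqrt (ml μ ((L.map (Pool.Agent.H43.DPC.trans ((-(δ / 2)) • e))).map (rot (Re e)) ++
        L.map (Pool.Agent.H43.DPC.trans ((-(δ / 2)) • e))))) ≤
      (4 * m / δ) ^ m * h ^ m * (K * ∏ i, ∫ x, |f i x|) :=
        mul_le_mul_of_nonneg_left hmul (by positivity)
    _ = (4 * m / δ) ^ m * K * h ^ m * ∏ i, ∫ x, |f i x| := by ring

end

end Pool.Agent.H74.LD
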