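import Pool.Agent.H80.LD.Targets2
import Pool.Agent.H49.LD.LMO
import Pool.Agent.H19.LD.POS

/-!
MP_47c37b_mp, board ldp, row CLO: the properties of the laws survive limits in law.
-/

set_option autoImplicit false

open MeasureTheory SchwartzMap Filter Topology
open scoped ENNReal ContDiff InnerProductSpace

namespace Pool.Agent.H74.LD

open Pool.Agent.H80.LD
open Pool.Agent.H43.DPC (V S SD moment trans rot IsMAO Diag)
open Pool.Agent.H49.LD (ev_meas ev_lin)
open Pool.Agent.H19.LD (moment_eq_ml moment_pair_eq_ml)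

variable {d : ℕ}

theorem int_pow {μ : Measure (SD d)} [IsProbabilityMeasure μ] (hM : IsMAO μ) (f : S d) (n : ℕ) :
    Integrable (fun T : SD d => (T f) ^ n) μ := by
  rcases Nat.eq_zero_or_pos n with h0 | h0
  · subst h0
    simp only [pow_zero]
    exact integrable_const _
  · have h1 := (hM f (n : ℝ≥0∞) (ENNReal.natCast_ne_top n)).integrable_norm_pow h0.ne'
    refine h1.mono ((ev_meas f).pow_const n).aestronglyMeasurable ?_
    refine Filter.Eventually.of_forall fun T => ?_
    simp only [norm_pow, norm_norm, le_refl]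

theorem moment_const (μ : Measure (SD d)) (f : S d) (n : ℕ) :
    moment μ (fun _ : Fin n => f) = ∫ T : SD d, (T f) ^ n ∂μ := by
  unfold moment
  refine integral_congr_ae (Filter.Eventually.of_forall fun T => ?_)
  simp only [Finset.prod_const, Finset.card_univ, Fintype.card_fin]

theorem moment_two (μ : Measure (SD d)) (f : S d) :
    moment μ ![f, f] = ∫ T : SD d, (T f) ^ 2 ∂μ := by
  unfold moment
  refine integral_congr_ae (Filter.Eventually.of_forall fun T => ?_)
  simp only [Fin.prod_univ_two, Matrix.cons_val_zero, Matrix.cons_val_one]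
  ring

theorem gau_bound (hPRB : T_PRB) {μ : Measure (SD d)} (hD : Dom μ) (h : S d)
    (h0 : ∀ x, 0 ≤ h x) (p : ℕ) :
    (∫ T : SD d, (T h) ^ (2 * p) ∂μ) * (2 ^ p * (p.factorial : ℝ)) ≤
      ((2 * p).factorial : ℝ) * (∫ T : SD d, (T h) ^ 2 ∂μ) ^ p := by
  have h1 := hD.gau (2 * p) (fun _ => h) (fun _ x => h0 x)
  rw [moment_const] at h1
  have h2 := hPRB.const (2 * p) (moment μ ![h, h]) Finset.univ p (by
    rw [Finset.card_univ, Fintype.card_fin])
  rw [moment_two] at h2
  rw [moment_two] at h1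
  rw [← h2]
  exact mul_le_mul_of_nonneg_right h1 (by positivity)

/-- the characteristic functions of `T ↦ T f` converge -/
theorem cf_tendsto {ν : ℕ → Measure (SD d)} {μ : Measure (SD d)}
    (hL : ∀ f : S d,
      Tendsto (fun k => ∫ T : SD d, Complex.exp (Complex.I * ((T f : ℝ) : ℂ)) ∂(ν k)) atTop
        (𝓝 (∫ T : SD d, Complex.exp (Complex.I * ((T f : ℝ) : ℂ)) ∂μ))) (f : S d) (t : ℝ) :
    Tendsto (fun k => ∫ x, Complex.exp (Complex.I * ((t * x : ℝ) : ℂ))
        ∂((ν k).map (fun T : SD d => T f))) atTop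
      (𝓝 (∫ x, Complex.exp (Complex.I * ((t * x : ℝ) : ℂ)) ∂(μ.map (fun T : SD d => T f)))) := by
  have hex : Continuous (fun x : ℝ => Complex.exp (Complex.I * ((t * x : ℝ) : ℂ))) := by
    fun_prop
  have e : ∀ ρ : Measure (SD d), ∫ x, Complex.exp (Complex.I * ((t * x : ℝ) : ℂ))
      ∂(ρ.map (fun T : SD d => T f)) =
      ∫ T : SD d, Complex.exp (Complex.I * ((T (t • f) : ℝ) : ℂ)) ∂ρ := by
    intro ρ
    rw [integral_map (ev_meas f).aemeasurable hex.aestronglyMeasurable]
    refine integral_congr_ae (Filter.Eventually.of_forall fun T => ?_)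
    have : T (t • f) = t * T f := by
      rw [map_smul]
      rfl
    simp only [this]
  simp only [e]
  exact hL (t • f)

section seq

variable {e : V d} {ν : ℕ → Measure (SD d)} {μ : Measure (SD d)}

/-- uniform bounds for the even moments -/
theorem umb (hMAJ : T_MAJ) (hKTS : T_KTS) (hPRB : T_PRB) (hG : ∀ k, Good e (ν k))
    [IsProbabilityMeasure μ]
    (hL : ∀ f : S d,
      Tendsto (fun k => ∫ T : SD d, Complex.exp (Complex.I * ((T f : ℝ) : ℂ)) ∂(ν k)) atTop
        (𝓝 (∫ T : SD d, Complex.exp (Complex.I * ((T f : ℝ) : ℂ)) ∂μ))) (f : S d) :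
    ∃ v : ℝ, 0 ≤ v ∧ ∀ p k : ℕ,
      (∫ T : SD d, (T f) ^ (2 * p) ∂(ν k)) * (2 ^ p * (p.factorial : ℝ)) ≤
        ((2 * p).factorial : ℝ) * v ^ p := by
  obtain ⟨h, hh⟩ := hMAJ d f
  have h0 : ∀ x, 0 ≤ h x := fun x => (abs_nonneg _).trans (hh x)
  have hprob : ∀ k, IsProbabilityMeasure (ν k) := fun k => (hG k).prob
  have hpw : ∀ (ρ : Measure (SD d)) (n : ℕ), ∫ x, x ^ n ∂(ρ.map (fun T : SD d => T h)) =
      ∫ T : SD d, (T h) ^ n ∂ρ := fun ρ n =>
    integral_map (ev_meas h).aemeasurable (continuous_pow n).aestronglyMeasurable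
  have hK := hKTS (fun k => (ν k).map (fun T : SD d => T h)) (μ.map (fun T : SD d => T h))
    (fun k => by
      have := hprob k
      exact Measure.isProbabilityMeasure_map (ev_meas h).aemeasurable)
    (Measure.isProbabilityMeasure_map (ev_meas h).aemeasurable)
    (cf_tendsto hL h)
    (fun k => by
      have := hprob k
      rw [integrable_map_measure (continuous_pow 4).aestronglyMeasurable
        (ev_meas h).aemeasurable]
      exact int_pow (hG k).dom.mao h 4)
    (fun k => by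
      rw [hpw, hpw]
      have h2 := gau_bound hPRB (hG k).dom h h0 2
      norm_num [Nat.factorial] at h2
      linarith)
  obtain ⟨C, hC⟩ := hK
  refine ⟨max C 0, le_max_right _ _, fun p k => ?_⟩
  have hm : ∫ T : SD d, (T h) ^ 2 ∂(ν k) ≤ max C 0 := by
    have := hC k
    rw [hpw] at this
    exact this.trans (le_max_left _ _)
  have hm0 : 0 ≤ ∫ T : SD d, (T h) ^ 2 ∂(ν k) := integral_nonneg fun T => sq_nonneg _
  have h3 := (hG k).dom.maj (2 * p) (fun _ => f) (fun _ => h) (fun _ x => hh x)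
  rw [moment_const, moment_const] at h3
  have h4 := gau_bound hPRB (hG k).dom h h0 p
  calc (∫ T : SD d, (T f) ^ (2 * p) ∂(ν k)) * (2 ^ p * (p.factorial : ℝ))
      ≤ (∫ T : SD d, (T h) ^ (2 * p) ∂(ν k)) * (2 ^ p * (p.factorial : ℝ)) :=
        mul_le_mul_of_nonneg_right ((le_abs_self _).trans h3) (by positivity)
    _ ≤ ((2 * p).factorial : ℝ) * (∫ T : SD d, (T h) ^ 2 ∂(ν k)) ^ p := h4
    _ ≤ ((2 * p).factorial : ℝ) * (max C 0) ^ p :=
        mul_le_mul_of_nonneg_left (pow_le_pow_left₀ hm0 hm p) (by positivity)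

/-- the moments of one test function -/
theorem one_mom (hMAJ : T_MAJ) (hKTS : T_KTS) (hWMC : T_WMC) (hPRB : T_PRB)
    (hG : ∀ k, Good e (ν k)) [IsProbabilityMeasure μ]
    (hL : ∀ f : S d,
      Tendsto (fun k => ∫ T : SD d, Complex.exp (Complex.I * ((T f : ℝ) : ℂ)) ∂(ν k)) atTop
        (𝓝 (∫ T : SD d, Complex.exp (Complex.I * ((T f : ℝ) : ℂ)) ∂μ))) (f : S d) (n : ℕ) :
    Integrable (fun T : SD d => (T f) ^ n) μ ∧
    Tendsto (fun k => ∫ T : SD d, (T f) ^ n ∂(ν k)) atTop (𝓝 (∫ T : SD d, (T f) ^ n ∂μ)) := by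
  have hprob : ∀ k, IsProbabilityMeasure (ν k) := fun k => (hG k).prob
  have hpw : ∀ (ρ : Measure (SD d)) (n : ℕ), ∫ x, x ^ n ∂(ρ.map (fun T : SD d => T f)) =
      ∫ T : SD d, (T f) ^ n ∂ρ := fun ρ n =>
    integral_map (ev_meas f).aemeasurable (continuous_pow n).aestronglyMeasurable
  obtain ⟨v, hv, hvb⟩ := umb hMAJ hKTS hPRB hG hL f
  have h := hWMC (fun k => (ν k).map (fun T : SD d => T f)) (μ.map (fun T : SD d => T f))
    (fun k => by
      have := hprob k
      exact Measure.isProbabilityMeasure_map (ev_meas f).aemeasurable)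
    (Measure.isProbabilityMeasure_map (ev_meas f).aemeasurable) (cf_tendsto hL f)
    (fun p => ⟨fun k => by
      have := hprob k
      rw [integrable_map_measure (continuous_pow _).aestronglyMeasurable
        (ev_meas f).aemeasurable]
      exact int_pow (hG k).dom.mao f (2 * p), ((2 * p).factorial : ℝ) * v ^ p, fun k => by
      rw [hpw]
      have h1 := hvb p k
      have h2 : 0 ≤ ∫ T : SD d, (T f) ^ (2 * p) ∂(ν k) :=
        integral_nonneg fun T => (even_two_mul p).pow_nonneg _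
      have h3 : (1 : ℝ) ≤ 2 ^ p * (p.factorial : ℝ) := by
        have h4 : (1 : ℝ) ≤ 2 ^ p := one_le_pow₀ (by norm_num)
        have h5 : (1 : ℝ) ≤ (p.factorial : ℝ) := by exact_mod_cast p.factorial_pos
        nlinarith
      nlinarith⟩) n
  obtain ⟨h1, h2⟩ := h
  refine ⟨(integrable_map_measure (continuous_pow n).aestronglyMeasurable
    (ev_meas f).aemeasurable).1 h1, ?_⟩
  simp only [hpw] at h2
  exact h2

/-- convergence of all moments -/
theorem all_mom (hMAJ : T_MAJ) (hKTS : T_KTS) (hWMC : T_WMC) (hPOL : T_POL) (hPRB : T_PRB)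
    (hG : ∀ k, Good e (ν k)) [IsProbabilityMeasure μ]
    (hL : ∀ f : S d,
      Tendsto (fun k => ∫ T : SD d, Complex.exp (Complex.I * ((T f : ℝ) : ℂ)) ∂(ν k)) atTop
        (𝓝 (∫ T : SD d, Complex.exp (Complex.I * ((T f : ℝ) : ℂ)) ∂μ))) :
    IsMAO μ ∧ ∀ l : List (S d), Tendsto (fun k => ml (ν k) l) atTop (𝓝 (ml μ l)) := by
  refine ⟨?_, ?_⟩
  · intro f p hp
    obtain ⟨m, hm⟩ : ∃ m : ℕ, p ≤ m := by
      obtain ⟨m, hm⟩ := ENNReal.exists_nat_gt hp
      exact ⟨m, hm.le⟩
    have hi := (one_mom hMAJ hKTS hWMC hPRB hG hL f (2 * (m + 1))).1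
    have hne : ((2 * (m + 1) : ℕ) : ℝ≥0∞) ≠ 0 :=
      Nat.cast_ne_zero.2 (by omega)
    have hM : MemLp (fun T : SD d => T f) ((2 * (m + 1) : ℕ) : ℝ≥0∞) μ := by
      rw [← integrable_norm_rpow_iff (ev_meas f).aestronglyMeasurable hne
        (ENNReal.natCast_ne_top _)]
      refine hi.congr (Filter.Eventually.of_forall fun T => ?_)
      simp only [ENNReal.toReal_natCast, Real.rpow_natCast, Real.norm_eq_abs]
      rw [Even.pow_abs (even_two_mul _)]
    refine hM.mono_exponent (hm.trans ?_)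
    exact_mod_cast (by omega : m ≤ 2 * (m + 1))
  · intro l
    obtain ⟨n, f, rfl⟩ : ∃ (n : ℕ) (f : Fin n → S d), l = List.ofFn f :=
      ⟨l.length, l.get, (List.ofFn_get l).symm⟩
    set c : (Fin n → Bool) → Fin n → ℝ := fun ε i => if ε i then (1 : ℝ) else -1 with hc
    have hK : (0 : ℝ) < 2 ^ n * (n.factorial : ℝ) := by positivity
    have e2 : ∀ ρ : Measure (SD d), (∀ g : S d, Integrable (fun T : SD d => (T g) ^ n) ρ) →
        ml ρ (List.ofFn f) = (2 ^ n * (n.factorial : ℝ))⁻¹ *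
        ∑ ε : Fin n → Bool, (∏ i, c ε i) * ∫ T : SD d, (T (∑ i, c ε i • f i)) ^ n ∂ρ := by
      intro ρ hρ
      unfold ml
      have h1 : ∀ T : SD d, ((List.ofFn f).map (fun f => T f)).prod =
          (2 ^ n * (n.factorial : ℝ))⁻¹ * ∑ ε : Fin n → Bool, (∏ i, c ε i) *
            (T (∑ i, c ε i • f i)) ^ n := by
        intro T
        rw [List.map_ofFn, List.prod_ofFn, eq_inv_mul_iff_mul_eq₀ hK.ne']
        rw [show (∏ i, ((fun f => T f) ∘ f) i) = ∏ i, T (f i) from rfl,
          hPOL n (fun i => T (f i))]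
        refine Finset.sum_congr rfl fun ε _ => ?_
        rw [ev_lin]
      simp only [h1]
      rw [integral_const_mul, integral_finsetSum]
      · simp only [integral_const_mul]
      · intro ε _
        exact (hρ _).const_mul _
    have e1 : ∀ k, ml (ν k) (List.ofFn f) = (2 ^ n * (n.factorial : ℝ))⁻¹ *
        ∑ ε : Fin n → Bool, (∏ i, c ε i) *
          ∫ T : SD d, (T (∑ i, c ε i • f i)) ^ n ∂(ν k) := by
      intro k
      have := (hG k).prob
      exact e2 (ν k) (fun g => int_pow (hG k).dom.mao g n)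
    have e3 := e2 μ (fun g => (one_mom hMAJ hKTS hWMC hPRB hG hL g n).1)
    simp only [e1]
    rw [e3]
    refine Tendsto.const_mul _ (tendsto_finsetSum _ fun ε _ => ?_)
    exact ((one_mom hMAJ hKTS hWMC hPRB hG hL _ n).2).const_mul _

end seq

/-- row CLO -/
theorem pf_CLO (hMAJ : T_MAJ) (hKTS : T_KTS) (hWMC : T_WMC) (hPOL : T_POL) (hPRB : T_PRB) :
    T_CLO := by
  intro d e ν μ hG hμ hL
  obtain ⟨hmao, hT⟩ := all_mom hMAJ hKTS hWMC hPOL hPRB hG hL
  refine ⟨hμ, ⟨hmao, ?_, ?_, ?_, ?_⟩, ?_⟩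
  · intro n f hf
    rw [moment_eq_ml]
    refine ge_of_tendsto' (hT (List.ofFn f)) (fun k => ?_)
    rw [← moment_eq_ml]
    exact (hG k).dom.pos n f hf
  · intro n f h hfh
    rw [moment_eq_ml, moment_eq_ml]
    refine le_of_tendsto_of_tendsto' (hT (List.ofFn f)).abs (hT (List.ofFn h)) (fun k => ?_)
    rw [← moment_eq_ml, ← moment_eq_ml]
    exact (hG k).dom.maj n f h hfh
  · intro n h hh
    rw [moment_eq_ml]
    have h1 : Tendsto (fun k => pair (fun i j : Fin n => moment (ν k) ![h i, h j]) Finset.univ)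
        atTop (𝓝 (pair (fun i j : Fin n => moment μ ![h i, h j]) Finset.univ)) := by
      have hc := hPRB.cont n (Finset.univ : Finset (Fin n))
      have h2 : Tendsto (fun k => (fun i j : Fin n => moment (ν k) ![h i, h j])) atTop
          (𝓝 (fun i j : Fin n => moment μ ![h i, h j])) := by
        rw [tendsto_pi_nhds]
        intro i
        rw [tendsto_pi_nhds]
        intro j
        simp only [moment_pair_eq_ml]
        exact hT [h i, h j]
      exact (hc.tendsto _).comp h2
    refine le_of_tendsto_of_tendsto' (hT (List.ofFn h)) h1 (fun k => ?_)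
    rw [← moment_eq_ml]
    exact (hG k).dom.gau n h hh
  · intro n hn f
    rw [moment_eq_ml]
    refine tendsto_nhds_unique (hT (List.ofFn f)) ?_
    have h1 : ∀ k, ml (ν k) (List.ofFn f) = 0 := by
      intro k
      rw [← moment_eq_ml]
      exact (hG k).dom.odd n hn f
    simp only [h1]
    exact tendsto_const_nhds
  · intro m c F hF
    have h2 : Tendsto (fun k => ∑ j, ∑ l, c j * c l *
        ml (ν k) ((F j).map (rot (Re e)) ++ F l)) atTop
        (𝓝 (∑ j, ∑ l, c j * c l * ml μ ((F j).map (rot (Re e)) ++ F l))) :=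
      tendsto_finsetSum _ fun j _ => tendsto_finsetSum _ fun l _ => (hT _).const_mul _
    exact ge_of_tendsto' h2 fun k => (hG k).rp m c F hF

end Pool.Agent.H74.LD
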